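import Pool.Agent.Helper74.BS.St

/-!
# Project BS, module VE: codes of the vectors
-/

set_option autoImplicit false

namespace Pool.Agent.Helper80.BS

open Pool.Agent.Helper73.DC Pool.Agent.Helper74.BS

open Finset

private theorem vcod_succ (B m : ℕ) (v : ℕ → ℕ) : vcod B (m + 1) v = vcod B m v + v m * B ^ m := by
  unfold vcod
  rw [Finset.sum_range_succ]

private theorem vcod_lt (B : ℕ) (v : ℕ → ℕ) : ∀ m, (∀ r, r < m → v r < B) → vcod B m v < B ^ m := by
  intro m
  induction m with
  | zero =>
    intro _
    unfold vcod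
    simp
  | succ m ih =>
    intro h
    have h1 := ih fun r hr => h r (by omega)
    have h2 := h m (by omega)
    rw [vcod_succ]
    have h3 : (v m + 1) * B ^ m ≤ B * B ^ m := Nat.mul_le_mul_right _ h2
    have h4 : B ^ (m + 1) = B * B ^ m := by rw [pow_succ]; ring
    rw [h4]
    have h5 : (v m + 1) * B ^ m = v m * B ^ m + B ^ m := by ring
    omega

private theorem dg_vcod (B : ℕ) (v : ℕ → ℕ) : ∀ m, (∀ r, r < m → v r < B) →
    ∀ r, r < m → dg B (vcod B m v) r = v r := by
  intro m
  induction m with
  | zero =>
    intro _ r hr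
    omega
  | succ m ih =>
    intro h r hr
    have hv : ∀ r, r < m → v r < B := fun r hr => h r (by omega)
    have hB : 0 < B := lt_of_le_of_lt (Nat.zero_le _) (h m (by omega))
    rw [vcod_succ]
    rcases Nat.lt_or_ge r m with h1 | h1
    · have h2 := ih hv r h1
      rw [← h2]
      unfold dg
      obtain ⟨k, rfl⟩ : ∃ k, m = r + (k + 1) := ⟨m - r - 1, by omega⟩
      have h3 : v (r + (k + 1)) * B ^ (r + (k + 1)) = B ^ r * (B * (v (r + (k + 1)) * B ^ k)) := by
        rw [pow_add, pow_succ]
        ring
      rw [h3, Nat.add_mul_div_left _ _ (Nat.pow_pos hB), Nat.add_mul_mod_self_left]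
    · have h2 : r = m := by omega
      subst h2
      unfold dg
      have h3 := vcod_lt B v r hv
      have h4 : v r * B ^ r = B ^ r * v r := by ring
      rw [h4, Nat.add_mul_div_left _ _ (Nat.pow_pos hB), Nat.div_eq_of_lt h3, zero_add,
        Nat.mod_eq_of_lt (h r (by omega))]

private theorem vcod_dg (B a : ℕ) : ∀ m, vcod B m (dg B a) = a % B ^ m := by
  intro m
  induction m with
  | zero =>
    unfold vcod
    simp [Nat.mod_one]
  | succ m ih =>
    rw [vcod_succ, ih]
    unfold dg
    rw [pow_succ, Nat.mod_mul]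
    ring

private theorem vcod_congr (B m : ℕ) (v v' : ℕ → ℕ) (h : ∀ r, r < m → v r = v' r) :
    vcod B m v = vcod B m v' := by
  unfold vcod
  refine Finset.sum_congr rfl fun r hr => ?_
  rw [h r (Finset.mem_range.1 hr)]

private theorem dg_lt (K a r : ℕ) : dg (K + 1) a r ≤ K := by
  unfold dg
  exact Nat.lt_succ_iff.1 (Nat.mod_lt (a / (K + 1) ^ r) (Nat.succ_pos K))

private theorem dg_vec (K m : ℕ) (f : Fo) (r : ℕ) (hr : r < m) :
    dg (K + 1) (vec K m f) r = min K (cn K r f) := by
  unfold vec
  exact dg_vcod (K + 1) (fun r => min K (cn K r f)) m (fun r _ => by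
    have := Nat.min_le_left K (cn K r f)
    show min K (cn K r f) < K + 1
    omega) r hr

private theorem dg_addv (K m a b : ℕ) (r : ℕ) (hr : r < m) :
    dg (K + 1) (addv K m a b) r = min K (dg (K + 1) a r + dg (K + 1) b r) := by
  unfold addv
  exact dg_vcod (K + 1) (fun r => min K (dg (K + 1) a r + dg (K + 1) b r)) m (fun r _ => by
    have := Nat.min_le_left K (dg (K + 1) a r + dg (K + 1) b r)
    show min K (dg (K + 1) a r + dg (K + 1) b r) < K + 1
    omega) r hr

private theorem lv_app : ∀ f g : Fo, lv (app f g) = lv f + lv g := by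
  intro f g
  induction f with
  | nil => simp [app, lv]
  | nd a b _ ih =>
    simp only [app, lv, ih]
    omega

private theorem cnS_app (K : ℕ) (h : Fo → ℕ) : ∀ f g : Fo, cnS K h (app f g) = cnS K h f + cnS K h g := by
  intro f g
  induction f with
  | nil => simp [app, cnS]
  | nd a b _ ih =>
    simp only [app, cnS, ih]
    omega

private theorem cn_app (K j : ℕ) (f g : Fo) : cn K j (app f g) = cn K j f + cn K j g := by
  cases j with
  | zero => exact lv_app f g
  | succ j => exact cnS_app K (cn K j) f g

private theorem tt_le (K a : ℕ) (hK : 1 ≤ K) : ∀ r, tt K a r ≤ K := by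
  intro r
  cases r with
  | zero =>
    have := dg_lt K a 0
    simp only [tt]
    omega
  | succ r =>
    have := dg_lt K a (r + 1)
    simp only [tt]
    split_ifs <;> omega

private theorem tt_vec (K m : ℕ) (f : Fo) (hK : 1 ≤ K) : ∀ r, r < m →
    min K (cn K r (Fo.nd f Fo.nil)) = tt K (vec K m f) r := by
  intro r
  induction r with
  | zero =>
    intro hr
    simp only [tt]
    rw [dg_vec K m f 0 hr]
    have h1 : cn K 0 (Fo.nd f Fo.nil) = max 1 (cn K 0 f) := by
      change max 1 (lv f) + 0 = max 1 (lv f)
      omega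
    rw [h1]
    omega
  | succ r ih =>
    intro hr
    simp only [tt]
    rw [dg_vec K m f (r + 1) hr, ← ih (by omega)]
    have h1 : cn K (r + 1) (Fo.nd f Fo.nil) =
        max (if K ≤ cn K r (Fo.nd f Fo.nil) then 1 else 0) (cn K (r + 1) f) := by
      change max (if K ≤ cn K r (Fo.nd f Fo.nil) then 1 else 0) (cnS K (cn K r) f) + 0 =
        max (if K ≤ cn K r (Fo.nd f Fo.nil) then 1 else 0) (cnS K (cn K r) f)
      omega
    rw [h1]
    split_ifs <;> omega

theorem hVE : Pool.Agent.Helper74.BS.StVE := by
  refine ⟨?_, ?_, ?_, ?_, ?_, ?_, ?_, ?_, ?_⟩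
  · intro K m f
    unfold vec
    refine vcod_lt _ _ m fun r _ => ?_
    have := Nat.min_le_left K (cn K r f)
    show min K (cn K r f) < K + 1
    omega
  · intro K m a b
    unfold addv
    refine vcod_lt _ _ m fun r _ => ?_
    have := Nat.min_le_left K (dg (K + 1) a r + dg (K + 1) b r)
    show min K (dg (K + 1) a r + dg (K + 1) b r) < K + 1
    omega
  · intro K m a hK
    unfold cmb
    refine vcod_lt _ _ m fun r _ => ?_
    have := tt_le K a hK r
    omega
  · intro K m f hK
    unfold cmb
    conv_lhs => unfold vec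
    exact vcod_congr _ _ _ _ fun r hr => tt_vec K m f hK r hr
  · intro K m f g
    unfold addv
    conv_lhs => unfold vec
    refine vcod_congr _ _ _ _ fun r hr => ?_
    rw [dg_vec K m f r hr, dg_vec K m g r hr, cn_app]
    omega
  · intro K m a b c
    conv_lhs => unfold addv
    conv_rhs => unfold addv
    refine vcod_congr _ _ _ _ fun r hr => ?_
    have h1 := dg_addv K m a b r hr
    have h2 := dg_addv K m b c r hr
    unfold addv at h1 h2
    rw [h1, h2]
    omega
  · intro K m a ha
    have h0 : ∀ r, dg (K + 1) 0 r = 0 := by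
      intro r
      unfold dg
      simp
    constructor
    · have h1 : addv K m a 0 = vcod (K + 1) m (dg (K + 1) a) := by
        unfold addv
        refine vcod_congr _ _ _ _ fun r _ => ?_
        have := dg_lt K a r
        rw [h0 r]
        omega
      rw [h1, vcod_dg, Nat.mod_eq_of_lt ha]
    · have h1 : addv K m 0 a = vcod (K + 1) m (dg (K + 1) a) := by
        unfold addv
        refine vcod_congr _ _ _ _ fun r _ => ?_
        have := dg_lt K a r
        rw [h0 r]
        omega
      rw [h1, vcod_dg, Nat.mod_eq_of_lt ha]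
  · intro K m
    unfold vec vcod
    refine Finset.sum_eq_zero fun r _ => ?_
    have h1 : cn K r Fo.nil = 0 := by
      cases r with
      | zero => rfl
      | succ r => rfl
    simp only [h1]
    simp
  · intro K m f r hr
    exact dg_vec K m f r hr

end Pool.Agent.Helper80.BS
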