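import Pool.Agent.Helper9.BS.St

/-!
# Project BS, module EXT (MP_eb8260_an)
-/

set_option autoImplicit false

open scoped NNReal

noncomputable section

namespace Pool.Agent.Helper80.BS

open Pool.Agent.Helper9.BS

variable {X K H : Type} [NormedAddCommGroup K] [InnerProductSpace ℂ K]
  [NormedAddCommGroup H] [InnerProductSpace ℂ H]

theorem inner_lc (e : X → K) (f : X →₀ ℂ) :
    inner ℂ (Finsupp.linearCombination ℂ e f) (Finsupp.linearCombination ℂ e f)
      = ∑ x ∈ f.support, ∑ y ∈ f.support, (starRingEnd ℂ) (f x) * (f y * inner ℂ (e x) (e y)) := by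
  rw [Finsupp.linearCombination_apply, Finsupp.sum, sum_inner]
  refine Finset.sum_congr rfl fun x _ => ?_
  rw [inner_sum]
  refine Finset.sum_congr rfl fun y _ => ?_
  rw [inner_smul_left, inner_smul_right]

theorem norm_lc (e : X → K) (e' : X → H)
    (h : ∀ x y, inner ℂ (e x) (e y) = inner ℂ (e' x) (e' y)) (f : X →₀ ℂ) :
    ‖Finsupp.linearCombination ℂ e' f‖ = ‖Finsupp.linearCombination ℂ e f‖ := by
  have h1 : inner ℂ (Finsupp.linearCombination ℂ e' f) (Finsupp.linearCombination ℂ e' f)
      = inner ℂ (Finsupp.linearCombination ℂ e f) (Finsupp.linearCombination ℂ e f) := by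
    rw [inner_lc, inner_lc]
    simp only [h]
  rw [inner_self_eq_norm_sq_to_K, inner_self_eq_norm_sq_to_K] at h1
  have h2 : ‖Finsupp.linearCombination ℂ e' f‖ ^ 2 = ‖Finsupp.linearCombination ℂ e f‖ ^ 2 := by
    exact_mod_cast h1
  exact (sq_eq_sq₀ (norm_nonneg _) (norm_nonneg _)).mp h2

/-- Module EXT. -/
theorem hEXT : StEXT := by
  intro X K H _ _ _ _ _ e e' h
  set M := (Submodule.span ℂ (Set.range e)).topologicalClosure with hM
  have hmem : ∀ x, e x ∈ M := fun x =>
    Submodule.le_topologicalClosure _ (Submodule.subset_span ⟨x, rfl⟩)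
  let e1 : X → M := fun x => ⟨e x, hmem x⟩
  have hval : ∀ f : X →₀ ℂ, ((Finsupp.linearCombination ℂ e1 f : M) : K)
      = Finsupp.linearCombination ℂ e f := by
    intro f
    have := (Finsupp.apply_linearCombination ℂ M.subtype e1 f)
    exact this
  have hnorm : ∀ f : X →₀ ℂ, ‖Finsupp.linearCombination ℂ e' f‖
      = ‖Finsupp.linearCombination ℂ e1 f‖ := by
    intro f
    rw [norm_lc e e' h f, ← hval f]
    rfl
  have hdense : DenseRange (Finsupp.linearCombination ℂ e1) := by
    intro y
    rw [closure_subtype]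
    have h1 : (Subtype.val '' (Set.range (Finsupp.linearCombination ℂ e1)) : Set K)
        = (Submodule.span ℂ (Set.range e) : Set K) := by
      rw [← Finsupp.range_linearCombination]
      ext z
      constructor
      · rintro ⟨_, ⟨f, rfl⟩, rfl⟩
        exact ⟨f, (hval f).symm⟩
      · rintro ⟨f, rfl⟩
        exact ⟨_, ⟨f, rfl⟩, hval f⟩
    rw [h1]
    exact y.2
  have hb : ∃ C : ℝ, ∀ f : X →₀ ℂ, ‖Finsupp.linearCombination ℂ e' f‖
      ≤ C * ‖Finsupp.linearCombination ℂ e1 f‖ := ⟨1, fun f => by rw [one_mul, hnorm f]⟩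
  let L : M →L[ℂ] H := (Finsupp.linearCombination ℂ e').extendOfNorm
    (Finsupp.linearCombination ℂ e1)
  have hL : ∀ f : X →₀ ℂ, L (Finsupp.linearCombination ℂ e1 f)
      = Finsupp.linearCombination ℂ e' f := fun f =>
    LinearMap.extendOfNorm_eq hdense hb f
  have hiso : ∀ y : M, ‖L y‖ = ‖y‖ := by
    intro y
    refine hdense.induction_on (p := fun y => ‖L y‖ = ‖y‖) y
      (isClosed_eq L.continuous.norm continuous_norm) ?_
    intro f
    rw [hL f, hnorm f]
  refine ⟨⟨L.toLinearMap, hiso⟩, fun x hx => ?_⟩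
  have h3 := hL (Finsupp.single x 1)
  rw [Finsupp.linearCombination_single, Finsupp.linearCombination_single, one_smul, one_smul] at h3
  exact h3

end Pool.Agent.Helper80.BS
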